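import Pool.Agent.Helper43.RS.Spec

/-! # LK: Lie-Kolchin -/

namespace Pool.Agent.Helper43.RS

open scoped commutatorElement

variable {B : Type} [Group B] {H : Subalgebra ℂ (B → ℂ)}

theorem lk_right (hH : HopfFun H) {f : B → ℂ} (hf : f ∈ H) (a : B) :
    (fun x => f (x * a)) ∈ H := by
  obtain ⟨n, u, v, hu, _, h⟩ := hH.mul f hf
  have h1 : (fun x => f (x * a)) = ∑ i, (v i a) • u i := by
    funext x
    rw [h x a, Finset.sum_apply]
    refine Finset.sum_congr rfl fun i _ => ?_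
    rw [Pi.smul_apply, smul_eq_mul, mul_comm]
  rw [h1]
  exact H.sum_mem fun i _ => H.smul_mem (hu i) _

theorem lk_left (hH : HopfFun H) {f : B → ℂ} (hf : f ∈ H) (a : B) :
    (fun x => f (a * x)) ∈ H := by
  obtain ⟨n, u, v, _, hv, h⟩ := hH.mul f hf
  have h1 : (fun x => f (a * x)) = ∑ i, (u i a) • v i := by
    funext x
    rw [h a x, Finset.sum_apply]
    refine Finset.sum_congr rfl fun i _ => ?_
    rw [Pi.smul_apply, smul_eq_mul]
  rw [h1]
  exact H.sum_mem fun i _ => H.smul_mem (hv i) _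

/-- products of two maps each of which is compatible with `H` -/
theorem lk_prod (hH : HopfFun H) {p q : B → B} (hp : ∀ f ∈ H, (fun x => f (p x)) ∈ H)
    (hq : ∀ f ∈ H, (fun x => f (q x)) ∈ H) : ∀ f ∈ H, (fun x => f (p x * q x)) ∈ H := by
  intro f hf
  obtain ⟨n, u, v, hu, hv, h⟩ := hH.mul f hf
  have h1 : (fun x => f (p x * q x)) = ∑ i, (fun x => u i (p x)) * (fun x => v i (q x)) := by
    funext x
    rw [h, Finset.sum_apply]
    rfl
  rw [h1]
  exact H.sum_mem fun i _ => H.mul_mem (hp _ (hu i)) (hq _ (hv i))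

theorem lk_comm (hH : HopfFun H) {f : B → ℂ} (hf : f ∈ H) (g y : B) :
    (fun x => f (g * ⁅x, y⁆)) ∈ H := by
  have hinv : ∀ f ∈ H, (fun x : B => f x⁻¹) ∈ H := hH.inv
  have hid : ∀ f ∈ H, (fun x : B => f x) ∈ H := fun f hf => hf
  have hc : ∀ c : B, ∀ f ∈ H, (fun _ : B => f c) ∈ H := fun c f _ =>
    H.algebraMap_mem (f c)
  have h1 := lk_prod hH (hc g) (lk_prod hH (lk_prod hH (lk_prod hH hid (hc y)) hinv) (hc y⁻¹))
    f hf
  exact h1

theorem lk_conj (hH : HopfFun H) {f : B → ℂ} (hf : f ∈ H) (d : B) :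
    (fun x => f (x⁻¹ * d * x)) ∈ H := by
  have hinv : ∀ f ∈ H, (fun x : B => f x⁻¹) ∈ H := hH.inv
  have hid : ∀ f ∈ H, (fun x : B => f x) ∈ H := fun f hf => hf
  have hc : ∀ c : B, ∀ f ∈ H, (fun _ : B => f c) ∈ H := fun c f _ =>
    H.algebraMap_mem (f c)
  exact lk_prod hH (lk_prod hH hinv (hc d)) hid f hf

/-- Connectedness of a subgroup: functions with finitely many values are constant. -/
def LkCn (H : Subalgebra ℂ (B → ℂ)) (D : Subgroup B) : Prop :=
  ∀ f ∈ H, (f '' (D : Set B)).Finite → ∀ x ∈ D, f x = f 1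

theorem lk_top (hI : IrrFun H) : LkCn H (⊤ : Subgroup B) := by
  intro f hf hfin x _
  have key : ∀ s : Finset ℂ, ∏ c ∈ s, (f - algebraMap ℂ (B → ℂ) c) = 0 →
      ∃ c ∈ s, f - algebraMap ℂ (B → ℂ) c = 0 := by
    intro s
    induction s using Finset.induction_on with
    | empty =>
      intro h
      rw [Finset.prod_empty] at h
      exact absurd (congrFun h 1) one_ne_zero
    | insert c s hc ih =>
      intro h
      rw [Finset.prod_insert hc] at h
      have h1 : f - algebraMap ℂ (B → ℂ) c ∈ H := H.sub_mem hf (H.algebraMap_mem c)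
      have h2 : ∏ c ∈ s, (f - algebraMap ℂ (B → ℂ) c) ∈ H :=
        H.prod_mem fun c _ => H.sub_mem hf (H.algebraMap_mem c)
      rcases hI _ h1 _ h2 h with h3 | h3
      · exact ⟨c, Finset.mem_insert_self _ _, h3⟩
      · obtain ⟨c', hc', h4⟩ := ih h3
        exact ⟨c', Finset.mem_insert_of_mem hc', h4⟩
  have h0 : ∏ c ∈ hfin.toFinset, (f - algebraMap ℂ (B → ℂ) c) = 0 := by
    funext y
    rw [Finset.prod_apply]
    refine Finset.prod_eq_zero (i := f y) ?_ ?_
    · rw [Set.Finite.mem_toFinset]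
      exact ⟨y, trivial, rfl⟩
    · show f y - algebraMap ℂ (B → ℂ) (f y) y = 0
      exact sub_self _
  obtain ⟨c, _, h1⟩ := key _ h0
  have h2 : ∀ y, f y = c := fun y => sub_eq_zero.mp (congrFun h1 y)
  rw [h2, h2]

theorem lk_derived (hH : HopfFun H) {D : Subgroup B} (h : LkCn H D) : LkCn H ⁅D, D⁆ := by
  intro f hf hfin
  let C : Subgroup B :=
    { carrier := {x | x ∈ (⁅D, D⁆ : Subgroup B) ∧ ∀ g ∈ (⁅D, D⁆ : Subgroup B), f (g * x) = f g}
      mul_mem' := by
        rintro x y ⟨hx, hx2⟩ ⟨hy, hy2⟩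
        refine ⟨mul_mem hx hy, fun g hg => ?_⟩
        rw [← mul_assoc, hy2 _ (mul_mem hg hx), hx2 g hg]
      one_mem' := ⟨one_mem _, fun g _ => by rw [mul_one]⟩
      inv_mem' := by
        rintro x ⟨hx, hx2⟩
        refine ⟨inv_mem hx, fun g hg => ?_⟩
        have := hx2 (g * x⁻¹) (mul_mem hg (inv_mem hx))
        rw [inv_mul_cancel_right] at this
        exact this.symm }
  have hle : (⁅D, D⁆ : Subgroup B) ≤ C := by
    rw [Subgroup.commutator_le]
    intro x hx y hy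
    refine ⟨Subgroup.commutator_mem_commutator hx hy, fun g hg => ?_⟩
    have h1 := h _ (lk_comm hH hf g y) (hfin.subset ?_) x hx
    · have h2 : f (g * ⁅x, y⁆) = f (g * ⁅(1 : B), y⁆) := h1
      rw [h2, commutatorElement_one_left, mul_one]
    · rintro _ ⟨z, hz, rfl⟩
      exact ⟨g * ⁅z, y⁆, mul_mem hg (Subgroup.commutator_mem_commutator hz hy), rfl⟩
  intro x hx
  have := (hle hx).2 1 (one_mem _)
  rwa [one_mul] at this

variable {V : Type} [AddCommGroup V] [Module ℂ V] [FiniteDimensional ℂ V]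

/-- The conclusion for a subgroup. -/
def LkEig (ρ : Representation ℂ B V) (D : Subgroup B) : Prop :=
  ∀ W : Submodule ℂ V, W ≠ ⊥ → (∀ d ∈ D, ∀ w ∈ W, ρ d w ∈ W) →
    ∃ v ∈ W, v ≠ 0 ∧ ∃ lam : B → ℂ, ∀ d ∈ D, ρ d v = lam d • v

theorem lk_min (ρ : Representation ℂ B V) (D : Subgroup B) (W : Submodule ℂ V) (hW : W ≠ ⊥)
    (hs : ∀ d ∈ D, ∀ w ∈ W, ρ d w ∈ W) :
    ∃ W₀ ≤ W, W₀ ≠ ⊥ ∧ (∀ d ∈ D, ∀ w ∈ W₀, ρ d w ∈ W₀) ∧
      ∀ U ≤ W₀, U ≠ ⊥ → (∀ d ∈ D, ∀ w ∈ U, ρ d w ∈ U) → U = W₀ := by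
  have hwf : WellFounded ((· < ·) : Submodule ℂ V → Submodule ℂ V → Prop) :=
    wellFounded_lt
  obtain ⟨W₀, ⟨h1, h2, h3⟩, h4⟩ := hwf.has_min
    {U : Submodule ℂ V | U ≤ W ∧ U ≠ ⊥ ∧ ∀ d ∈ D, ∀ w ∈ U, ρ d w ∈ U} ⟨W, le_rfl, hW, hs⟩
  refine ⟨W₀, h1, h2, h3, fun U hU hU0 hUs => ?_⟩
  by_contra hne
  exact h4 U ⟨hU.trans h1, hU0, hUs⟩ (lt_of_le_of_ne hU hne)

theorem lk_conj_mem {D : Subgroup B} {g d : B} (hg : g ∈ D) (hd : d ∈ (⁅D, D⁆ : Subgroup B)) :
    g⁻¹ * d * g ∈ (⁅D, D⁆ : Subgroup B) := by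
  have h := Subgroup.normalizer_commutator_ge_left D D (inv_mem hg)
  have h1 := (Subgroup.mem_normalizer_iff.mp h d).mp hd
  rwa [inv_inv] at h1

/-- The induction step. -/
theorem lk_step (hH : HopfFun H) (ρ : Representation ℂ B V)
    (hρ : ∀ (v : V) (φ : V →ₗ[ℂ] ℂ), (fun g => φ (ρ g v)) ∈ H) {D : Subgroup B}
    (hD : LkCn H D) (ih : LkEig ρ ⁅D, D⁆) : LkEig ρ D := by
  intro W1 hW1 hs1
  have hDD : (⁅D, D⁆ : Subgroup B) ≤ D := by
    rw [Subgroup.commutator_le]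
    intro a ha b hb
    exact mul_mem (mul_mem (mul_mem ha hb) (inv_mem ha)) (inv_mem hb)
  obtain ⟨W, hWle, hW, hs, hmin⟩ := lk_min ρ D W1 hW1 hs1
  obtain ⟨v, hv, hv0, χ, hχ⟩ := ih W hW (fun d hd w hw => hs d (hDD hd) w hw)
  obtain ⟨φ, hφ⟩ : ∃ φ : V →ₗ[ℂ] ℂ, φ v = 1 := by
    by_contra hcon
    apply hv0
    rw [← Module.forall_dual_apply_eq_zero_iff ℂ v]
    intro φ
    by_contra h0
    refine hcon ⟨(φ v)⁻¹ • φ, ?_⟩
    rw [LinearMap.smul_apply, smul_eq_mul, inv_mul_cancel₀ h0]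
  have hmul : ∀ (a b : B) (w : V), ρ (a * b) w = ρ a (ρ b w) := fun a b w => by
    rw [map_mul]; rfl
  have hinj : ∀ (a : B) (w : V), w ≠ 0 → ρ a w ≠ 0 := by
    intro a w hw h
    apply hw
    have : ρ a⁻¹ (ρ a w) = w := by
      rw [← hmul, inv_mul_cancel, map_one]; rfl
    rw [← this, h, map_zero]
  -- the character is invariant under conjugation
  have hχc : ∀ d ∈ (⁅D, D⁆ : Subgroup B), ∀ g ∈ D, χ (g⁻¹ * d * g) = χ d := by
    intro d hd g hg
    have hval : ∀ x ∈ D, φ (ρ (x⁻¹ * d * x) v) = χ (x⁻¹ * d * x) := by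
      intro x hx
      rw [hχ _ (lk_conj_mem hx hd), map_smul, hφ, smul_eq_mul, mul_one]
    have h1 := hD _ (lk_conj hH (hρ v φ) d) ?_ g hg
    · have h2 : φ (ρ (g⁻¹ * d * g) v) = φ (ρ ((1 : B)⁻¹ * d * 1) v) := h1
      rw [hval g hg, hval 1 (one_mem _)] at h2
      rw [h2, inv_one, one_mul, mul_one]
    · refine (Module.End.finite_hasEigenvalue (ρ d)).subset ?_
      rintro _ ⟨x, hx, rfl⟩
      show Module.End.HasEigenvalue (ρ d) (φ (ρ (x⁻¹ * d * x) v))
      rw [hval x hx]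
      refine Module.End.hasEigenvalue_of_hasEigenvector (x := ρ x v)
        (Module.End.hasEigenvector_iff.mpr ⟨?_, hinj x v hv0⟩)
      rw [Module.End.mem_eigenspace_iff, ← hmul]
      have h3 : d * x = x * (x⁻¹ * d * x) := by group
      rw [h3, hmul, hχ _ (lk_conj_mem hx hd), map_smul]
  -- `W` is the weight space
  have hWχ : ∀ w ∈ W, ∀ d ∈ (⁅D, D⁆ : Subgroup B), ρ d w = χ d • w := by
    let U : Submodule ℂ V :=
      { carrier := {w | w ∈ W ∧ ∀ d ∈ (⁅D, D⁆ : Subgroup B), ρ d w = χ d • w}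
        add_mem' := by
          rintro a b ⟨ha, ha2⟩ ⟨hb, hb2⟩
          exact ⟨W.add_mem ha hb, fun d hd => by rw [map_add, ha2 d hd, hb2 d hd, smul_add]⟩
        zero_mem' := ⟨W.zero_mem, fun d _ => by rw [map_zero, smul_zero]⟩
        smul_mem' := by
          rintro c a ⟨ha, ha2⟩
          exact ⟨W.smul_mem c ha, fun d hd => by rw [map_smul, ha2 d hd, smul_comm]⟩ }
    have hU : U = W := by
      refine hmin U (fun w hw => hw.1) ?_ ?_
      · intro h
        have : v ∈ U := ⟨hv, hχ⟩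
        rw [h] at this
        exact hv0 this
      · rintro g hg w ⟨hw, hw2⟩
        refine ⟨hs g hg w hw, fun d hd => ?_⟩
        have h3 : d * g = g * (g⁻¹ * d * g) := by group
        rw [← hmul, h3, hmul, hw2 _ (lk_conj_mem hg hd), map_smul, hχc d hd g hg]
    intro w hw d hd
    rw [← hU] at hw
    exact hw.2 d hd
  -- the determinant
  have hWpos : 0 < Module.finrank ℂ W := by
    rw [Module.finrank_pos_iff]
    exact Submodule.nontrivial_iff_ne_bot.mpr hW
  let R : D →* (W →ₗ[ℂ] W) :=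
    { toFun := fun g => (ρ (g : B)).restrict (fun w hw => hs g g.2 w hw)
      map_one' := by
        ext w
        simp
      map_mul' := by
        intro a b
        ext w
        simp }
  let δ : D →* ℂˣ := (LinearMap.det.comp R).toHomUnits
  have hle : (⁅D, D⁆ : Subgroup B) ≤ δ.ker.map D.subtype := by
    rw [Subgroup.commutator_le]
    intro a ha b hb
    refine ⟨⁅(⟨a, ha⟩ : D), ⟨b, hb⟩⁆, ?_, rfl⟩
    rw [SetLike.mem_coe, MonoidHom.mem_ker, map_commutatorElement, commutatorElement_eq_one_iff_mul_comm, mul_comm]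
  have hpow : ∀ d ∈ (⁅D, D⁆ : Subgroup B), χ d ^ Module.finrank ℂ W = 1 := by
    intro d hd
    obtain ⟨x, hx, hxd⟩ := hle hd
    have h1 : LinearMap.det (R x) = 1 := by
      have h2 : δ x = 1 := hx
      have h3 := congrArg (fun u : ℂˣ => (u : ℂ)) h2
      exact h3
    have h2 : R x = χ d • (LinearMap.id : W →ₗ[ℂ] W) := by
      ext w
      have h3 := hWχ w w.2 d hd
      have h4 : (x : B) = d := hxd
      show ρ (x : B) (w : V) = _
      rw [h4, h3]
      rfl
    rw [h2, LinearMap.det_smul, LinearMap.det_id, mul_one] at h1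
    exact h1
  have hχ1 : ∀ d ∈ (⁅D, D⁆ : Subgroup B), χ d = 1 := by
    intro d hd
    have hval : ∀ x ∈ (⁅D, D⁆ : Subgroup B), φ (ρ x v) = χ x := by
      intro x hx
      rw [hχ _ hx, map_smul, hφ, smul_eq_mul, mul_one]
    have h1 := lk_derived hH hD _ (hρ v φ) ?_ d hd
    · have h2 : φ (ρ d v) = φ (ρ 1 v) := h1
      have h3 : φ (ρ 1 v) = 1 := by
        rw [map_one]
        exact hφ
      rw [hval d hd, h3] at h2
      exact h2
    · refine (Polynomial.nthRootsFinset (Module.finrank ℂ W) (1 : ℂ)).finite_toSet.subset ?_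
      rintro _ ⟨x, hx, rfl⟩
      rw [Finset.mem_coe, Polynomial.mem_nthRootsFinset hWpos]
      show φ (ρ x v) ^ _ = 1
      rw [hval x hx]
      exact hpow x hx
  -- the operators commute
  have hcomm : ∀ g ∈ D, ∀ h ∈ D, ∀ w ∈ W, ρ g (ρ h w) = ρ h (ρ g w) := by
    intro g hg h hh w hw
    have h1 : g * h = (h * g) * ⁅g⁻¹, h⁻¹⁆ := by
      rw [commutatorElement_def]
      group
    have h2 := Subgroup.commutator_mem_commutator (inv_mem hg) (inv_mem hh)
    rw [← hmul, h1, hmul, hWχ w hw _ h2, hχ1 _ h2, one_smul, hmul]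
  have hscal : ∀ g ∈ D, ∃ c : ℂ, ∀ w ∈ W, ρ g w = c • w := by
    intro g hg
    have : Nontrivial W := Submodule.nontrivial_iff_ne_bot.mpr hW
    obtain ⟨c, hc⟩ := Module.End.exists_eigenvalue (R ⟨g, hg⟩)
    obtain ⟨w, hw⟩ := hc.exists_hasEigenvector
    have hw1 : R ⟨g, hg⟩ w = c • w := hw.apply_eq_smul
    have hw2 : ρ g (w : V) = c • (w : V) := congrArg Subtype.val hw1
    have hw0 : (w : V) ≠ 0 := fun h => hw.2 (Subtype.ext h)
    refine ⟨c, ?_⟩
    let U : Submodule ℂ V :=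
      { carrier := {w | w ∈ W ∧ ρ g w = c • w}
        add_mem' := by
          rintro a b ⟨ha, ha2⟩ ⟨hb, hb2⟩
          exact ⟨W.add_mem ha hb, by rw [map_add, ha2, hb2, smul_add]⟩
        zero_mem' := ⟨W.zero_mem, by rw [map_zero, smul_zero]⟩
        smul_mem' := by
          rintro e a ⟨ha, ha2⟩
          exact ⟨W.smul_mem e ha, by rw [map_smul, ha2, smul_comm]⟩ }
    have hU : U = W := by
      refine hmin U (fun w hw => hw.1) ?_ ?_
      · intro h
        have : (w : V) ∈ U := ⟨w.2, hw2⟩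
        rw [h] at this
        exact hw0 this
      · rintro x hx u ⟨hu, hu2⟩
        refine ⟨hs x hx u hu, ?_⟩
        rw [hcomm g hg x hx u hu, hu2, map_smul]
    intro u hu
    rw [← hU] at hu
    exact hu.2
  classical
  refine ⟨v, hWle hv, hv0, fun g => if h : g ∈ D then (hscal g h).choose else 0, fun g hg => ?_⟩
  show ρ g v = (if h : g ∈ D then (hscal g h).choose else 0) • v
  rw [dif_pos hg]
  exact (hscal g hg).choose_spec v hv

/-- LK. -/
theorem st_LK : ST_LK := by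
  intro B _ H hH hI hsol V _ _ _ _ ρ hρ
  have hcoef : ∀ (v : V) (φ : V →ₗ[ℂ] ℂ), (fun g => φ (ρ g v)) ∈ H := by
    intro v φ
    obtain ⟨W, hv, _, _, h⟩ := hρ v
    exact h v hv φ
  obtain ⟨n, hn⟩ := hsol.solvable
  have hcn : ∀ k, LkCn H (derivedSeries B k) := by
    intro k
    induction k with
    | zero => exact lk_top hI
    | succ k ih => exact lk_derived hH ih
  have key : ∀ j, j ≤ n → LkEig ρ (derivedSeries B (n - j)) := by
    intro j
    induction j with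
    | zero =>
      intro _ W hW _
      rw [Nat.sub_zero, hn]
      obtain ⟨v, hv, hv0⟩ := W.ne_bot_iff.mp hW
      refine ⟨v, hv, hv0, fun _ => 1, fun d hd => ?_⟩
      rw [Subgroup.mem_bot.mp hd, map_one, one_smul]
      rfl
    | succ j ih =>
      intro hj
      have h1 := ih (by omega)
      have h2 : n - j = (n - (j + 1)) + 1 := by omega
      rw [h2, derivedSeries_succ] at h1
      exact lk_step hH ρ hcoef (hcn _) h1
  have h0 := key n le_rfl
  rw [Nat.sub_self] at h0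
  obtain ⟨v, _, hv0, lam, hlam⟩ := h0 ⊤ (by
    intro h
    exact (bot_ne_top (α := Submodule ℂ V)) h.symm) (fun _ _ _ _ => trivial)
  exact ⟨v, hv0, lam, fun b => hlam b trivial⟩

end Pool.Agent.Helper43.RS
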